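import Pool.Agent.H469.F4.T9

set_option autoImplicit false

/-!
# MP_069854_nt. Joint large deviations of zeta at any number of shifted points, unconditional and uniform in the shifts

Write `L = log T`, `s = √(log log T)`, and let `prob T V α` be the proportion of `T ≤ t ≤ 2T` with
`|ζ(1/2 + i(t + α_j))| > V_j` for all `j < n` at once.

* (window) For points `α_j` with `|α_j - α_l| ≤ 1` (which may depend on `T` in any way, `|α_j| ≤ T/2`) and levels
  `V_j = L^(v_j)` let `I = I(v, α, T)` be the value of `sup (2 ∑ k_j v_j - ∑ k_j k_l g_T(α_j - α_l))` over `k_j ≥ 0`, `g_T`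
  being the explicit covariance `g_T(u) = - log (max (1/L) |u|) / log L` of a branching (log-correlated) field. The
  probability is at least `e^(-C s) L^(-I)` for all levels `v_j ≤ A`, and at most `C L^(-I)` when `v_j ≥ 0` and
  `∑ v_j ≤ 2`. Everything is uniform in the levels and the shifts.
* (all shifts) For all `|α_j| ≤ T/2`, `k_j ≥ 0`, put `V_j = ∏_l |ζ(1 + 1/L + i(α_j - α_l))|^(k_l)` and
  `R = ∏_(j,l) |ζ(1 + 1/L + i(α_j - α_l))|^(k_j k_l)`. The probability for the levels `e^(-C s) V_j` is at least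
  `e^(-C s) / R` when `∑ k_j ≤ K`, and for the levels `x V_j`, `0 < x ≤ 1`, at most `C x^(-4) / R` when `∑ k_j ≤ 2`.
-/

open Filter Topology MeasureTheory

namespace Pool.Agent.Results.MP_069854_nt.JointLargeValuesSharp

/-- The proportion of `T ≤ t ≤ 2T` with `|ζ(1/2 + i(t + α_j))| > V_j` for all `j`. -/
noncomputable def prob {n : ℕ} (T : ℝ) (V α : Fin n → ℝ) : ℝ :=
  (1 / T) * (volume {t : ℝ | t ∈ Set.Icc T (2 * T) ∧ ∀ j, V j < ‖riemannZeta (1 / 2 + ((t + α j : ℝ) : ℂ) * Complex.I)‖}).toReal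

/-- The covariance `g_T(u) = - log (max (1 / log T) |u|) / log log T`. It is `1` for `|u| ≤ 1 / log T`, `a` for
`|u| = (log T)^(-a)`, `0 ≤ a ≤ 1`. -/
noncomputable def overlap (T u : ℝ) : ℝ := -Real.log (max (1 / Real.log T) |u|) / Real.log (Real.log T)

/-- The rate `I(v, α, T)`, the supremum of `2 ∑_j k_j v_j - ∑_j ∑_l k_j k_l g_T(α_j - α_l)` over `k_j ≥ 0`. -/
noncomputable def rate {n : ℕ} (T : ℝ) (v α : Fin n → ℝ) : ℝ :=
  sSup {x : ℝ | ∃ k : Fin n → ℝ, (∀ j, 0 ≤ k j) ∧ x = 2 * ∑ j, k j * v j - ∑ j, ∑ l, k j * k l * overlap T (α j - α l)}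

/-- `∏_l |ζ(1 + 1/log T + i(α_j - α_l))|^(k_l)`. -/
noncomputable def level {n : ℕ} (T : ℝ) (k α : Fin n → ℝ) (j : Fin n) : ℝ :=
  ∏ l, ‖riemannZeta (1 + 1 / Real.log T + (α j - α l : ℝ) * Complex.I)‖ ^ k l

/-- `∏_(j,l) |ζ(1 + 1/log T + i(α_j - α_l))|^(k_j k_l)`. -/
noncomputable def order {n : ℕ} (T : ℝ) (k α : Fin n → ℝ) : ℝ :=
  ∏ j, ∏ l, ‖riemannZeta (1 + 1 / Real.log T + (α j - α l : ℝ) * Complex.I)‖ ^ (k j * k l)

lemma prob_eq {n : ℕ} (T : ℝ) (V α : Fin n → ℝ) : prob T V α = Pool.Agent.H469.F4.PN T V α := by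
  unfold prob Pool.Agent.H469.F4.PN
  rw [one_div]
  rfl

lemma rate_eq {n : ℕ} (T : ℝ) (v α : Fin n → ℝ) : rate T v α = Pool.Agent.H469.F4.rN (fun j l => Pool.Agent.H469.F4.ov T (α j - α l)) v := by
  unfold rate Pool.Agent.H469.F4.rN
  congr 1
  ext x
  have h1 : ∀ k : Fin n → ℝ, 2 * ∑ j, k j * v j - ∑ j, ∑ l, k j * k l * overlap T (α j - α l) =
      Pool.Agent.H469.F4.dV (fun j l => Pool.Agent.H469.F4.ov T (α j - α l)) v k := by
    intro k
    unfold Pool.Agent.H469.F4.dV Pool.Agent.H469.F4.qR Pool.Agent.H469.F4.lR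
    congr 1
    refine Finset.sum_congr rfl fun j _ => ?_
    rw [Finset.mul_sum]
    refine Finset.sum_congr rfl fun l _ => ?_
    rw [mul_assoc]
    rfl
  simp only [Set.mem_setOf_eq, h1]

theorem result :
    -- points in a window of length 1
    (∀ (n : ℕ) (A : ℝ), 0 < n → 0 ≤ A → ∃ C : ℝ, 0 < C ∧ ∀ᶠ T : ℝ in atTop, ∀ v α : Fin n → ℝ,
      (∀ j, |α j| ≤ T / 2) → (∀ j l, |α j - α l| ≤ 1) →
      ((∀ j, v j ≤ A) →
        Real.log T ^ (-rate T v α) * Real.exp (-(C * Real.sqrt (Real.log (Real.log T)))) ≤ prob T (fun j => Real.log T ^ v j) α) ∧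
      ((∀ j, 0 ≤ v j) → ∑ j, v j ≤ 2 → prob T (fun j => Real.log T ^ v j) α ≤ C * Real.log T ^ (-rate T v α))) ∧
    -- all shifts
    (∀ (n : ℕ) (K : ℝ), 0 < n → 0 ≤ K → ∃ C : ℝ, 0 < C ∧ ∀ᶠ T : ℝ in atTop, ∀ k α : Fin n → ℝ,
      (∀ j, 0 ≤ k j) → (∀ j, |α j| ≤ T / 2) →
      (∑ j, k j ≤ K → (order T k α)⁻¹ * Real.exp (-(C * Real.sqrt (Real.log (Real.log T)))) ≤
        prob T (fun j => level T k α j * Real.exp (-(C * Real.sqrt (Real.log (Real.log T))))) α) ∧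
      (∑ j, k j ≤ 2 → ∀ x : ℝ, 0 < x → x ≤ 1 → x ^ 4 * prob T (fun j => level T k α j * x) α ≤ C * (order T k α)⁻¹)) := by
  refine ⟨?_, ?_⟩
  · intro n A hn hA
    obtain ⟨C₁, hC₁, h1⟩ := Pool.Agent.H469.F4.jointS_low n hA
    obtain ⟨C₂, hC₂, h2⟩ := Pool.Agent.H469.F4.jointS_up hn
    refine ⟨C₁ + C₂, by positivity, ?_⟩
    filter_upwards [h1, h2, Real.tendsto_log_atTop.eventually_ge_atTop 1] with T h1 h2 hL1 v α hα hw
    have hL0 : 0 < Real.log T := by linarith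
    simp only [prob_eq, rate_eq]
    refine ⟨fun hv => ?_, fun hv hv2 => ?_⟩
    · refine le_trans ?_ (h1 v α hv hα hw)
      apply mul_le_mul_of_nonneg_left _ (Real.rpow_nonneg hL0.le _)
      apply Real.exp_le_exp.2
      have h3 := mul_nonneg hC₂.le (Real.sqrt_nonneg (Real.log (Real.log T)))
      nlinarith
    · refine (h2 v α hv hv2 hα hw).trans ?_
      apply mul_le_mul_of_nonneg_right _ (Real.rpow_nonneg hL0.le _)
      linarith
  · intro n K hn hK
    obtain ⟨C, hC, h⟩ := Pool.Agent.H469.F4.jointS_all hn hK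
    refine ⟨C, hC, ?_⟩
    filter_upwards [h] with T h1 k α hk hα
    simp only [prob_eq]
    exact h1 k α hk hα

end Pool.Agent.Results.MP_069854_nt.JointLargeValuesSharp
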