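import Pool.Agent.H444.MH.Final

set_option autoImplicit false

/-!
# The microscopic Hadamard product of zeta, and the integrand of the shifted moments

No hypothesis is assumed: the zeros may be on or off the critical line and are counted with
multiplicity. Put `L = log T` and `ξ_ρ = L ((ρ - 1/2)/i - t)`, the position of the zero `ρ` seen from the
point `1/2 + it`, in units of `1 / log T` (a real number if `ρ` is on the line). For `K, ε > 0` there is a
`B` such that for every `η > 0` and every sufficiently large `M` there are `θ > 0`, `T₀` such that for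
`T ≥ T₀` there is a set `E` of exceptional `t` in `[T, 2T]` which carries at most the proportion `ε` of the
mean square of EVERY Dirichlet polynomial of length `T ^ θ`, and for all other `t`:

* `|ζ(1/2 + i(t + u/L)) / ζ(1/2 + it)| ≤ B`, and this ratio is
  `e^(-iu/2) ∏_{|Re ξ_ρ| ≤ M} (1 - u/ξ_ρ)` up to `η`, for all complex `|u| ≤ K`;
* the integrand of `Q_k(α, T)` is `e^(-ikα) (∏_{|Re ξ_ρ| ≤ M} (1 - α²/ξ_ρ²))^k |ζ(1/2 + it)|^(2k)` up to
  `η |ζ(1/2 + it)|^(2k)`, for all real `|α| ≤ K` and all `k ≤ K`; the product is real.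

Proof. The formula of Hadamard for the disc with centre `2 + it` gives
`ζ(1/2+i(t+u/L)) / ζ(1/2+it) = exp(A u + o(1)) ∏ (1 - u/ξ_ρ)` over `|Re ξ_ρ| ≤ M`, the zeros with
`|Re ξ_ρ| > M` being included in `A = A(M, t)`, up to `O(|u|² ∑_{|Re ξ_ρ| > M} |ξ_ρ|⁻²)`. The functional
equation gives `Im A = -1/2 + O(1/L)`: the zeros are symmetric to the line, so the near ones do not
contribute. For the real part take `u = Y`, a large number: `Y Re A` is the increment of `log |ζ|` between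
`t` and `t + Y/L` minus a sum over the zeros, `∑ (log |ξ_ρ - Y| - log |ξ_ρ|)`. The increment is
`O(1 + κ Y)` in mean relative to every Dirichlet polynomial, for every `κ > 0`: up to a bounded error
`log |ζ|` is a sum over the primes up to `T^κ`. The sum over the zeros is, by partial summation,
`∑_j (N_t(j) - N_{t+Y/L}(j)) / j`, and `N(j) - j/π` is `O(√j)` in mean relative to every Dirichlet
polynomial. Everything is `o(Y)`.
-/

namespace Pool.Agent.Results.MP_069854_nt.MicroscopicHadamardProduct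

open MeasureTheory Complex

/-- the nontrivial zeros of zeta with ordinate within `r` of `t` -/
def zerosNear (t r : ℝ) : Set ℂ := {ρ : ℂ | riemannZeta ρ = 0 ∧ 0 < ρ.re ∧ ρ.re < 1 ∧ |ρ.im - t| ≤ r}

/-- the multiplicity of a zero -/
noncomputable def mult (ρ : ℂ) : ℕ := analyticOrderNatAt riemannZeta ρ

/-- the position of `ρ` seen from `1/2 + it`, in units of `1 / log T`; its real part is
`log T (Im ρ - t)`, its imaginary part `log T (1/2 - Re ρ)` -/
noncomputable def micro (T t : ℝ) (ρ : ℂ) : ℂ := (Real.log T : ℂ) * ((ρ - 1 / 2) / I - t)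

/-- the Hadamard product over the zeros with `|Re ξ_ρ| ≤ M` -/
noncomputable def hadamard (T t M : ℝ) (u : ℂ) : ℂ :=
  ∏ᶠ ρ ∈ zerosNear t (M / Real.log T), (1 - u / micro T t ρ) ^ mult ρ

/-- the even product over the zeros with `|Re ξ_ρ| ≤ M` -/
noncomputable def evenProduct (T t M α : ℝ) : ℂ :=
  ∏ᶠ ρ ∈ zerosNear t (M / Real.log T), (1 - (α : ℂ) ^ 2 / micro T t ρ ^ 2) ^ mult ρ

/-- Dirichlet polynomials on the critical line -/
noncomputable def dirichletPoly (N : ℕ) (b : ℕ → ℂ) (t : ℝ) : ℂ :=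
  ∑ n ∈ Finset.Icc 1 N, b n * (n : ℂ) ^ (-(1 / 2 + t * I))

/-- the ratio `ζ(1/2 + i(t + u / log T)) / ζ(1/2 + it)` -/
noncomputable def ratio (T t : ℝ) (u : ℂ) : ℂ :=
  riemannZeta (1 / 2 + I * (t + u / (Real.log T : ℂ))) / riemannZeta (1 / 2 + t * I)

/-- the integrand of `Q_k(α, T)` -/
noncomputable def integrand (k : ℕ) (α T t : ℝ) : ℂ :=
  riemannZeta (1 / 2 + I * α / (Real.log T : ℂ) + I * t) ^ k *
    riemannZeta (1 / 2 + I * α / (Real.log T : ℂ) - I * t) ^ k

/-- **The microscopic Hadamard product of zeta**, unconditionally and relative to every Dirichlet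
polynomial, and the integrand of the shifted moments. -/
theorem result (K ε : ℝ) (hK : 0 < K) (hε : 0 < ε) : ∃ B : ℝ, ∀ η : ℝ, 0 < η →
    ∃ M₀ : ℕ, ∀ M : ℕ, M₀ ≤ M → ∃ θ T₀ : ℝ, 0 < θ ∧ ∀ T : ℝ, T₀ ≤ T →
    ∃ E : Set ℝ, MeasurableSet E ∧ E ⊆ Set.Icc T (2 * T) ∧
      (∀ N : ℕ, (N : ℝ) ≤ T ^ θ → ∀ b : ℕ → ℂ,
        ∫ t in E, ‖dirichletPoly N b t‖ ^ 2 ≤ ε * ∫ t in T..(2 * T), ‖dirichletPoly N b t‖ ^ 2) ∧
      ∀ t ∈ Set.Icc T (2 * T), t ∉ E →
        riemannZeta (1 / 2 + t * I) ≠ 0 ∧ (zerosNear t (M / Real.log T)).Finite ∧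
        (∀ u : ℂ, ‖u‖ ≤ K → ‖ratio T t u‖ ≤ B ∧
          ‖ratio T t u - cexp (-(I * u / 2)) * hadamard T t M u‖ ≤ η) ∧
        (∀ α : ℝ, |α| ≤ K → (evenProduct T t M α).im = 0 ∧ ∀ k : ℕ, (k : ℝ) ≤ K →
          ‖integrand k α T t - cexp (-(I * k * α)) * evenProduct T t M α ^ k *
              ‖riemannZeta (1 / 2 + t * I)‖ ^ (2 * k)‖ ≤
            η * ‖riemannZeta (1 / 2 + t * I)‖ ^ (2 * k)) := by
  obtain ⟨B, _, h⟩ := Pool.Agent.H444.MH.had1 K ε hK hε
  refine ⟨B, fun η hη => ?_⟩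
  obtain ⟨M₀, h⟩ := h η hη
  refine ⟨M₀, fun M hM => ?_⟩
  obtain ⟨θ, hθ, T₀, h⟩ := h M hM
  exact ⟨θ, T₀, hθ, h⟩

end Pool.Agent.Results.MP_069854_nt.MicroscopicHadamardProduct
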