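import Pool.Agent.H681.SD.Main

set_option autoImplicit false

/-!
# MP_069854_nt: shifted moments of all orders, averaged over any well-separated set of heights

For every `k` and `η > 0` the following holds, with a power saving, for almost all vectors `(α, β) ∈ [0, T] ^ (2k)` of shifts.
Let `L ⊆ [0, T]` be ANY set of at least `T ^ η` heights with mutual distances `≥ 1`, and `w` any weights, `|w| ≤ 1`. In the
average over `t ∈ L` of `w(t) ∏_j ζ(1/2 + i(t + α_j)) ζ(1/2 - i(t + β_j))` zeta may be replaced by its partial sums of length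
`T ^ θ`, `θ > 0` arbitrarily small. If the sums `∑_{t ∈ L} w(t) (a/b) ^ {it}` are small for `a ≠ b`, `a, b ≤ T ^ η`, then
the average is the average of `w` times `ζ_{α,β}(1/2)`, the first term of the prediction of Conrey, Farmer, Keating, Rubinstein
and Snaith.
-/

namespace Pool.Agent.Results.MP_069854_nt.SeparatedHeights

open Complex MeasureTheory Filter

noncomputable section

variable {k : ℕ}

/-- The divisor function `τ_l(n)`: the sum over `d_1 d_2 ⋯ d_k = n` of `∏ j, d_j ^ l_j`. -/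
def tau (l : Fin k → ℂ) (n : ℕ) : ℂ :=
  ∑ d ∈ Nat.finMulAntidiag k n, ∏ j, (d j : ℂ) ^ (l j)

/-- The Euler factor at the prime `p` of the arithmetic factor. -/
def localFactor (a b : Fin k → ℝ) (p : ℕ) : ℂ :=
  (∏ j, ∏ l, (1 - (p : ℂ) ^ (-(1 + I * a j - I * b l)))) *
    ∑' m : ℕ, tau (fun j => I * b j) (p ^ m) * tau (fun j => -(I * a j)) (p ^ m) *
      (p : ℂ) ^ (-(m : ℂ))

/-- The arithmetic factor, an Euler product. -/
def arithF (a b : Fin k → ℝ) : ℂ := ∏' p : Nat.Primes, localFactor a b p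

/-- `ζ_{a,b}(1/2)`: the arithmetic factor times the product of the `k ^ 2` values `ζ(1 + i(a_j - b_l))`. -/
def zetaAB (a b : Fin k → ℝ) : ℂ :=
  arithF a b * ∏ j, ∏ l, riemannZeta (1 + I * a j - I * b l)

/-- `∏_j ζ(1/2 + i(t + α_j)) ζ(1/2 - i(t + β_j))`, where `γ = (α, β)` is indexed by `Fin k ⊕ Fin k`. -/
def Z (γ : Fin k ⊕ Fin k → ℝ) (t : ℝ) : ℂ :=
  ∏ j : Fin k, riemannZeta (1 / 2 + I * (t + γ (Sum.inl j))) *
    riemannZeta (1 / 2 - I * (t + γ (Sum.inr j)))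

/-- The partial sum `∑_{n ≤ N} n ^ (-s)`. -/
def partialSum (N : ℕ) (s : ℂ) : ℂ := ∑ n ∈ Finset.Icc 1 N, (n : ℂ) ^ (-s)

/-- The same product as `Z`, with the partial sums of length `N` instead of zeta. -/
def P (N : ℕ) (γ : Fin k ⊕ Fin k → ℝ) (t : ℝ) : ℂ :=
  ∏ j : Fin k, partialSum N (1 / 2 + I * (t + γ (Sum.inl j))) *
    partialSum N (1 / 2 - I * (t + γ (Sum.inr j)))

/-- `L` is a set of real numbers in `[0, T]` with mutual distances at least `1`. -/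
def Separated (L : Finset ℝ) (T : ℝ) : Prop :=
  (∀ t ∈ L, 0 ≤ t ∧ t ≤ T) ∧ ∀ s ∈ L, ∀ t ∈ L, s ≠ t → 1 ≤ |s - t|

open Pool.Agent.TH612.CF in
lemma zetaAB_eq (γ : Fin k ⊕ Fin k → ℝ) :
    zetaAB (fun j => γ (Sum.inl j)) (fun j => γ (Sum.inr j)) = Pool.Agent.TH612.GS.zr γ := by
  unfold zetaAB Pool.Agent.TH612.GS.zr zab arithF FH
  congr 1
  refine tprod_congr fun p => ?_
  unfold localFactor lh lt
  congr 1
  · refine tsum_congr fun m => ?_
    have e : ((p : ℕ) : ℂ) ^ (-(m : ℂ)) = (((p : ℕ) : ℂ) ^ m)⁻¹ := by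
      rw [Complex.cpow_neg, Complex.cpow_natCast]
    rw [e]
    rfl

lemma Z_eq (γ : Fin k ⊕ Fin k → ℝ) (t : ℝ) :
    Z γ t = ∏ j : Fin k, Pool.Agent.TH612.GS.z (t + γ (Sum.inl j)) *
      (starRingEnd ℂ) (Pool.Agent.TH612.GS.z (t + γ (Sum.inr j))) := by
  rw [← Pool.Agent.TH612.GS.Zg_fz]
  rfl

lemma conj_PN (N : ℕ) (u : ℝ) :
    (starRingEnd ℂ) (Pool.Agent.TH612.GS.PN N u) = partialSum N (1 / 2 - I * u) := by
  unfold Pool.Agent.TH612.GS.PN Pool.Agent.TH612.GS.zN partialSum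
  rw [map_sum]
  refine Finset.sum_congr rfl fun n _ => ?_
  have e : (starRingEnd ℂ) ((n : ℂ) ^ (-(1 / 2 + I * (u : ℂ)))) =
      (n : ℂ) ^ ((starRingEnd ℂ) (-(1 / 2 + I * (u : ℂ)))) := by
    rw [Complex.cpow_conj, Complex.conj_natCast]
    rw [Complex.natCast_arg]
    exact Real.pi_ne_zero.symm
  rw [e]
  congr 1
  simp only [map_neg, map_add, map_mul, map_div₀, map_one, map_ofNat, conj_ofReal, conj_I]
  ring

lemma P_eq (N : ℕ) (γ : Fin k ⊕ Fin k → ℝ) (t : ℝ) :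
    P N γ t = ∏ j : Fin k, Pool.Agent.TH612.GS.PN N (t + γ (Sum.inl j)) *
      (starRingEnd ℂ) (Pool.Agent.TH612.GS.PN N (t + γ (Sum.inr j))) := by
  unfold P
  refine Finset.prod_congr rfl fun j _ => ?_
  rw [conj_PN]
  unfold Pool.Agent.TH612.GS.PN Pool.Agent.TH612.GS.zN partialSum
  push_cast
  rfl

lemma sum_eq (L : Finset ℝ) (w : ℝ → ℂ) (N : ℕ) (γ : Fin k ⊕ Fin k → ℝ) :
    (∑ t ∈ L, w t * Z γ t = Pool.Agent.N879.SX.SF Pool.Agent.TH612.GS.z L w γ) ∧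
    (∑ t ∈ L, w t * P N γ t = Pool.Agent.N879.SX.SF (Pool.Agent.TH612.GS.PN N) L w γ) := by
  constructor
  · unfold Pool.Agent.N879.SX.SF
    exact Finset.sum_congr rfl fun t _ => by rw [Z_eq]
  · unfold Pool.Agent.N879.SX.SF
    exact Finset.sum_congr rfl fun t _ => by rw [P_eq]

/-- **Shifted moments of all orders, averaged over separated sets of heights.** For every `k` and `η > 0`:

* for every `θ > 0` there are `δ > 0` and `T₀` such that for all `T ≥ T₀`, all sets `L ⊆ [0, T]` of at least `T ^ η` real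
  numbers with mutual distances `≥ 1`, all weights `|w| ≤ 1` and all `T ^ θ ≤ N ≤ T`, outside of a set of shift vectors
  `γ ∈ [0, T] ^ (2k)` of measure at most `T ^ (2k - δ)`, the sums over `t ∈ L` of `w(t) Z_γ(t)` and of `w(t) P_{N,γ}(t)`
  differ by at most `T ^ (-δ) |L|`;
* there are `δ > 0` and `T₀` such that for all `T ≥ T₀`, `L`, `w` as above with
  `|∑_{t ∈ L} w(t) (a/b) ^ {it}| ≤ T ^ (-η) |L|` for all `a ≠ b`, `a, b ≤ T ^ η`, outside of a set of shift vectors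
  of measure at most `T ^ (2k - δ)`, the sum over `t ∈ L` of `w(t) Z_γ(t)` is `(∑ w(t)) ζ_{α,β}(1/2)`, up to `T ^ (-δ) |L|`. -/
theorem result (k : ℕ) (η : ℝ) (hη : 0 < η) :
    (∀ θ : ℝ, 0 < θ → ∃ δ T₀ : ℝ, 0 < δ ∧ ∀ (T : ℝ) (L : Finset ℝ) (w : ℝ → ℂ) (N : ℕ),
      T₀ ≤ T → Separated L T → T ^ η ≤ L.card → (∀ t, ‖w t‖ ≤ 1) → T ^ θ ≤ N → (N : ℝ) ≤ T →
      volume {γ : Fin k ⊕ Fin k → ℝ | (∀ i, 0 ≤ γ i ∧ γ i ≤ T) ∧
          T ^ (-δ) * L.card < ‖∑ t ∈ L, w t * Z γ t - ∑ t ∈ L, w t * P N γ t‖} ≤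
        ENNReal.ofReal (T ^ (2 * k - δ))) ∧
    ∃ δ T₀ : ℝ, 0 < δ ∧ ∀ (T : ℝ) (L : Finset ℝ) (w : ℝ → ℂ),
      T₀ ≤ T → Separated L T → T ^ η ≤ L.card → (∀ t, ‖w t‖ ≤ 1) →
      (∀ a b : ℕ, 1 ≤ a → 1 ≤ b → (a : ℝ) ≤ T ^ η → (b : ℝ) ≤ T ^ η → a ≠ b →
        ‖∑ t ∈ L, w t * exp (I * t * (Real.log a - Real.log b))‖ ≤ T ^ (-η) * L.card) →
      volume {γ : Fin k ⊕ Fin k → ℝ | (∀ i, 0 ≤ γ i ∧ γ i ≤ T) ∧
          T ^ (-δ) * L.card < ‖∑ t ∈ L, w t * Z γ t -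
            (∑ t ∈ L, w t) * zetaAB (fun j => γ (Sum.inl j)) (fun j => γ (Sum.inr j))‖} ≤
        ENNReal.ofReal (T ^ (2 * k - δ)) := by
  obtain ⟨h1, h2⟩ := Pool.Agent.H681.SD.main k η hη
  constructor
  · intro θ hθ
    obtain ⟨δ, T₀, hδ, -, h⟩ := h1 θ hθ
    refine ⟨δ, T₀, hδ, fun T L w N hT hL hc hw hN hN' => ?_⟩
    simp only [(sum_eq L w N _).1, (sum_eq L w N _).2]
    exact h T L w N hT hL hc hw hN hN'
  · obtain ⟨δ, T₀, hδ, -, h⟩ := h2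
    refine ⟨δ, T₀, hδ, fun T L w hT hL hc hw hW => ?_⟩
    simp only [(sum_eq L w 0 _).1, zetaAB_eq]
    exact h T L w hT hL hc hw hW

end

end Pool.Agent.Results.MP_069854_nt.SeparatedHeights
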