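import Pool.Agent.H481.GS6

/-!
# The order of all shifted moments from a positive proportion of the correlations

The shifted moments of the zeta function, `T⁻¹ ∫_0^T ∏_i |ζ(1/2 + i t + i α_i)|^{2 k_i} dt`, and the
means `Q_k(α, T)` of products `ζ(1/2 + i t + i a)^k ζ(1/2 - i t + i a)^k`, `a = α / log T`, are
conjectured to behave as the corresponding means over the unitary group.  In the unitary model, `N`
points `z_1, …, z_N` of the unit circle replace the zeros and `N` replaces `log T`.  The correlations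
of the zeros are known in a limited range only; in the model the correlations of range `R` are the
joint moments of the power sums `p_j = z_1^j + ⋯ + z_N^j` of weighted degree at most `R` (for a Haar
distributed unitary matrix `U` they are the traces of the powers `U^j`).

Let `C(N, R)` be the class of all laws of `N` points of the circle with the correlations of range `R`
of the eigenvalues of a Haar distributed unitary `N × N` matrix.  Let `k_1, …, k_d > 0` be real.  For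
shifts `α ∈ ℝ^d` let
`Φ_X(α) = ∏_{i, l} max(1 / X, |e^{i α_i} - e^{i α_l}|)^{-k_i k_l}
        = X^{∑ k_i²} ∏_{i < l} min(X, 1 / |e^{i α_i} - e^{i α_l}|)^{2 k_i k_l}`.
Let `M(ν, α) = E_ν (2π)⁻¹ ∫_0^{2π} ∏_i |∏_j (e^{i (θ + α_i)} - z_j)|^{2 k_i} dθ`.  We show:

* (1) For `1 ≤ R ≤ N`, `M(ν, α) ≥ c Φ_R(α)` on `C(N, R)`, uniformly in the shifts.
* (2) This is sharp up to a constant, for all `1 ≤ R < N / 2`, with one law for all `k` and all
  shifts; the law has a point at `1`, so in (1) the mean over the rotations `θ` cannot be left out.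
* (3) If `R ≥ δ N`, then `M(ν, α) ≤ C Φ_N(α)` on `C(N, R)`, uniformly in the shifts, and this bound
  holds for every rotation `θ` separately.
* (4) So correlations of the range `R(N)` force the order `Φ_N(α)` of the shifted moments if and only
  if `R(N) ≥ δ N` for some `δ > 0`, whatever the shifts `α = α(N)` are.
* (5) If `R ≥ δ N`, then the analogue of `Q_k(α, T)`, with the shift `a`, is of the absolute value at
  most `C N^{k²/2} max(1 / N, |e^{i a} - e^{- i a}|)^{-k²/2} ≤ C N^{k²}`, uniformly in `a`.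
-/

open MeasureTheory

namespace Pool.Agent.Results.MP_069854_nt.ShiftedMomentOrder

/-- the mean of `f` over the eigenvalues `z = (e^{iθ_1}, …, e^{iθ_N})` of a Haar distributed
unitary `N × N` matrix (Weyl's formula):
`(N! (2π)^N)⁻¹ ∫_{(0, 2π]^N} f(z) ∏_{i < j} |z_j - z_i|² dθ` -/
noncomputable def haarMean (N : ℕ) (f : (Fin N → ℂ) → ℂ) : ℂ :=
  ((N.factorial : ℂ) * (2 * Real.pi) ^ N)⁻¹ *
    ∫ θ in Set.univ.pi fun _ : Fin N => Set.Ioc (0 : ℝ) (2 * Real.pi),
      f (fun j => Complex.exp (Complex.I * θ j)) *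
        ((∏ i : Fin N, ∏ j ∈ Finset.Ioi i,
          ‖Complex.exp (Complex.I * θ j) - Complex.exp (Complex.I * θ i)‖ ^ 2 : ℝ) : ℂ)

/-- the product of the power sums `z_1^j + ⋯ + z_N^j` over the members `j` of the multiset `s` -/
noncomputable def powerSums {N : ℕ} (s : Multiset ℕ) (z : Fin N → ℂ) : ℂ :=
  (s.map fun j => ∑ i, z i ^ j).prod

/-- `ν` is a law of `N` points on the unit circle with the correlations of range `R` of the
eigenvalues of a Haar distributed unitary `N × N` matrix: the means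
`E[∏_{j ∈ s} p_j · conj ∏_{j ∈ t} p_j]` are the same, for all multisets `s`, `t` of positive integers
of sum at most `R`, with the power sums `p_j = z_1^j + ⋯ + z_N^j` -/
structure Agrees (N R : ℕ) (ν : Measure (Fin N → ℂ)) : Prop where
  prob : IsProbabilityMeasure ν
  unit : ∀ᵐ z ∂ν, ∀ i, ‖z i‖ = 1
  moments : ∀ s t : Multiset ℕ, (∀ j ∈ s, 0 < j) → (∀ j ∈ t, 0 < j) → s.sum ≤ R → t.sum ≤ R →
    ∫ z, powerSums s z * (starRingEnd ℂ) (powerSums t z) ∂ν =
      haarMean N (fun z => powerSums s z * (starRingEnd ℂ) (powerSums t z))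

/-- the product `∏_i |∏_j (e^{i (θ + α_i)} - z_j)|^{2 k_i}` over the shifts -/
noncomputable def shiftedProduct {N d : ℕ} (k α : Fin d → ℝ) (θ : ℝ) (z : Fin N → ℂ) : ℝ :=
  ∏ i, ‖∏ j, (Complex.exp (Complex.I * ((θ + α i : ℝ) : ℂ)) - z j)‖ ^ (2 * k i)

/-- the shifted moment `E_ν (2π)⁻¹ ∫_0^{2π} ∏_i |∏_j (e^{i (θ + α_i)} - z_j)|^{2 k_i} dθ` -/
noncomputable def shiftedMoment {N d : ℕ} (k α : Fin d → ℝ) (ν : Measure (Fin N → ℂ)) : ℝ :=
  ∫ z, ((2 * Real.pi)⁻¹ * ∫ θ in Set.Ioc (0 : ℝ) (2 * Real.pi), shiftedProduct k α θ z) ∂ν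

/-- the distance `|e^{ix} - e^{iy}|` of two shifts on the circle, or `1 / X` if it is smaller -/
noncomputable def sep (X : ℕ) (x y : ℝ) : ℝ :=
  max (1 / (X : ℝ)) ‖Complex.exp (Complex.I * x) - Complex.exp (Complex.I * y)‖

/-- `Φ_X(α) = ∏_{i, l} max(1 / X, |e^{i α_i} - e^{i α_l}|)^{-k_i k_l}`, the product being over all
pairs `(i, l)` including `i = l` -/
noncomputable def order {d : ℕ} (X : ℕ) (k α : Fin d → ℝ) : ℝ :=
  ∏ i, ∏ l, sep X (α i) (α l) ^ (-(k i * k l))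

/-- the analogue of the mean of `ζ(1/2 + i a + i t)^k ζ(1/2 + i a - i t)^k`: the mean
`E_ν (2π)⁻¹ ∫_0^{2π} ∏_j (1 - e^{-i (a + θ)} z_j)^k (1 - e^{-i (a - θ)} conj z_j)^k dθ`; for the
eigenvalues of a Haar distributed unitary matrix `U` it is the mean of
`det(1 - e^{-i a} U)^k det(1 - e^{-i a} U*)^k` -/
noncomputable def signedMean {N : ℕ} (k : ℕ) (a : ℝ) (ν : Measure (Fin N → ℂ)) : ℂ :=
  ∫ z, ((2 * (Real.pi : ℂ))⁻¹ * ∫ θ in Set.Ioc (0 : ℝ) (2 * Real.pi),
    (∏ j, (1 - Complex.exp (-(Complex.I * ((θ + a : ℝ) : ℂ))) * z j)) ^ k *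
      (∏ j, (1 - Complex.exp (-(Complex.I * ((a - θ : ℝ) : ℂ))) * (starRingEnd ℂ) (z j))) ^ k) ∂ν

/-- **Theorem.** (1) For real `k_1, …, k_d > 0` there is `c > 0` such that for `1 ≤ R ≤ N`, all laws
`ν` with the correlations of range `R` and all shifts `α`, the shifted moment is at least `c Φ_R(α)`.
(2) There are constants `C(k)` such that for `1 ≤ R < N / 2` there is a law with the correlations of
range `R`, almost surely with a point at `1`, whose shifted moments are at most `C(k) Φ_R(α)` for all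
`k` and `α`.
(3) For real `k_1, …, k_d > 0` and `δ > 0` there is `C` such that for all `N ≥ 1`, `R ≥ δ N`, all laws
with the correlations of range `R` and all shifts `α`, the means of
`∏_i |∏_j (e^{i (θ + α_i)} - z_j)|^{2 k_i}` for every fixed `θ`, and so the shifted moment, are at
most `C Φ_N(α)`.
(4) Let `d ≥ 1`, `k_1, …, k_d > 0`, `1 ≤ R(N) ≤ N` and `α(N) ∈ ℝ^d` for `N ≥ 1`.  The shifted moments
with the shifts `α(N)` of all laws with the correlations of range `R(N)` lie between two positive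
constant multiples of `Φ_N(α(N))` if and only if `R(N) ≥ δ N` for some `δ > 0` and all `N ≥ 1`.
(5) For integers `k ≥ 1` and real `δ > 0` there is `C` such that for all `N ≥ 1`, `R ≥ δ N`, all laws
with the correlations of range `R` and all `a`, the signed mean is of the absolute value at most
`C N^{k²/2} max(1 / N, |e^{i a} - e^{-i a}|)^{-k²/2}`. -/
theorem result :
    (∀ (d : ℕ) (k : Fin d → ℝ), (∀ i, 0 < k i) → ∃ c : ℝ, 0 < c ∧ ∀ N R : ℕ, 1 ≤ R → R ≤ N →
      ∀ ν : Measure (Fin N → ℂ), Agrees N R ν → ∀ α : Fin d → ℝ,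
        c * order R k α ≤ shiftedMoment k α ν) ∧
    (∃ C : (d : ℕ) → (Fin d → ℝ) → ℝ, ∀ R N : ℕ, 1 ≤ R → 2 * R < N →
      ∃ ν : Measure (Fin N → ℂ), Agrees N R ν ∧ (∀ᵐ z ∂ν, ∃ j, z j = 1) ∧
        ∀ (d : ℕ) (k : Fin d → ℝ), (∀ i, 0 < k i) → ∀ α : Fin d → ℝ,
          shiftedMoment k α ν ≤ C d k * order R k α) ∧
    (∀ (d : ℕ) (k : Fin d → ℝ), (∀ i, 0 < k i) → ∀ δ : ℝ, 0 < δ → ∃ C : ℝ, ∀ N R : ℕ, 1 ≤ N →
      δ * N ≤ R → ∀ ν : Measure (Fin N → ℂ), Agrees N R ν → ∀ α : Fin d → ℝ,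
        (∀ θ : ℝ, ∫ z, shiftedProduct k α θ z ∂ν ≤ C * order N k α) ∧
        shiftedMoment k α ν ≤ C * order N k α) ∧
    (∀ d : ℕ, 1 ≤ d → ∀ k : Fin d → ℝ, (∀ i, 0 < k i) → ∀ (R : ℕ → ℕ) (α : ℕ → Fin d → ℝ),
      (∀ N, 1 ≤ N → 1 ≤ R N ∧ R N ≤ N) →
      ((∃ c C : ℝ, 0 < c ∧ 0 < C ∧ ∀ N, 1 ≤ N → ∀ ν : Measure (Fin N → ℂ), Agrees N (R N) ν →
        c * order N k (α N) ≤ shiftedMoment k (α N) ν ∧
        shiftedMoment k (α N) ν ≤ C * order N k (α N)) ↔
      ∃ δ : ℝ, 0 < δ ∧ ∀ N : ℕ, 1 ≤ N → δ * N ≤ R N)) ∧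
    (∀ (k : ℕ) (δ : ℝ), 1 ≤ k → 0 < δ → ∃ C : ℝ, ∀ N R : ℕ, 1 ≤ N → δ * N ≤ R →
      ∀ ν : Measure (Fin N → ℂ), Agrees N R ν → ∀ a : ℝ,
        ‖signedMean k a ν‖ ≤
          C * ((N : ℝ) ^ ((k : ℝ) ^ 2 / 2) * sep N a (-a) ^ (-((k : ℝ) ^ 2 / 2)))) := by
  have hTC : ∀ (N R : ℕ) (ν : Measure (Fin N → ℂ)), Agrees N R ν →
      Pool.Agent.H481.GA.TC N R ν := by
    intro N R ν hν
    have := hν.prob
    refine Pool.Agent.H481.GA.TC_of hν.unit fun s t hs ht hsR htR => ?_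
    have h := hν.moments s t hs ht hsR htR
    simp only [Pool.Agent.H481.GA.eval_pm]
    exact h
  have part1 : ∀ (d : ℕ) (k : Fin d → ℝ), (∀ i, 0 < k i) → ∃ c : ℝ, 0 < c ∧ ∀ N R : ℕ, 1 ≤ R →
      R ≤ N → ∀ ν : Measure (Fin N → ℂ), Agrees N R ν → ∀ α : Fin d → ℝ,
        c * order R k α ≤ shiftedMoment k α ν := by
    intro d k hk
    obtain ⟨c, hc, h⟩ := Pool.Agent.H481.GS.low hk
    exact ⟨c, hc, fun N R hR hRN ν hν α =>
      h N R hR hRN ν hν.prob hν.unit (hTC N R ν hν) α⟩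
  have part2 : ∃ C : (d : ℕ) → (Fin d → ℝ) → ℝ, ∀ R N : ℕ, 1 ≤ R → 2 * R < N →
      ∃ ν : Measure (Fin N → ℂ), Agrees N R ν ∧ (∀ᵐ z ∂ν, ∃ j, z j = 1) ∧
        ∀ (d : ℕ) (k : Fin d → ℝ), (∀ i, 0 < k i) → ∀ α : Fin d → ℝ,
          shiftedMoment k α ν ≤ C d k * order R k α := by
    classical
    refine ⟨fun d k => if h : ∀ i, 0 < k i then (Pool.Agent.H481.GS.small_sh h).choose else 0,
      fun R N hR hRN => ⟨Pool.Agent.H481.GA.sl R N, ⟨Pool.Agent.H481.GA.sl_prob hR,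
        Pool.Agent.H481.GA.sl_unit, ?_⟩, Pool.Agent.H481.GS.sl_one hRN, ?_⟩⟩
    · intro s t hs ht hsR htR
      have h := Pool.Agent.H481.GA.sl_TC (N := N) hR hRN
        (Pool.Agent.H481.GA.pm s) (Pool.Agent.H481.GA.pm t)
        (Pool.Agent.H481.GA.pm_mem hs hsR) (Pool.Agent.H481.GA.pm_mem ht htR)
      simp only [Pool.Agent.H481.GA.eval_pm] at h
      exact h
    · intro d k hk α
      simp only [dif_pos hk]
      exact (Pool.Agent.H481.GS.small_sh hk).choose_spec.2 R hR N hRN α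
  have part3 : ∀ (d : ℕ) (k : Fin d → ℝ), (∀ i, 0 < k i) → ∀ δ : ℝ, 0 < δ → ∃ C : ℝ, 0 < C ∧
      ∀ N R : ℕ, 1 ≤ N → δ * N ≤ R → ∀ ν : Measure (Fin N → ℂ), Agrees N R ν →
      ∀ α : Fin d → ℝ, (∀ θ : ℝ, ∫ z, shiftedProduct k α θ z ∂ν ≤ C * order N k α) ∧
        shiftedMoment k α ν ≤ C * order N k α := by
    intro d k hk δ hδ
    obtain ⟨C, hC, h⟩ := Pool.Agent.H481.GS.up_theta hk hδ
    refine ⟨C, hC, fun N R hN hR ν hν α => ?_⟩
    have h2 := h N hN R hR ν hν.prob hν.unit (hTC N R ν hν) α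
    have := hν.prob
    exact ⟨h2, Pool.Agent.H481.GS.msh_mean hk α hν.unit h2⟩
  refine ⟨part1, part2, fun d k hk δ hδ => ?_, fun d hd k hk R α hR => ⟨?_, ?_⟩,
    fun k δ hk hδ => ?_⟩
  · obtain ⟨C, _, h⟩ := part3 d k hk δ hδ
    exact ⟨C, h⟩
  · rintro ⟨c, C, hc, _, h⟩
    obtain ⟨D, hD⟩ := part2
    set D' : ℝ := max (D d k) 1 with hD'
    have hD'1 : 1 ≤ D' := le_max_right _ _
    have hD'0 : 0 < D' := by linarith
    set q : ℝ := ∑ i, k i ^ 2 with hq
    have hq0 : 0 < q := Finset.sum_pos (fun i _ => by have := hk i; positivity)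
      ⟨⟨0, hd⟩, Finset.mem_univ _⟩
    set δ : ℝ := min (1 / 2) ((c / D') ^ (1 / q)) with hδ
    have hδ0 : 0 < δ := lt_min (by norm_num) (by positivity)
    refine ⟨δ, hδ0, fun N hN => ?_⟩
    have hNr : (0 : ℝ) < N := by exact_mod_cast hN
    by_cases h2 : 2 * R N < N
    · obtain ⟨ν, hν, _, hνk⟩ := hD (R N) N (hR N hN).1 h2
      have h3 := (h N hN ν hν).1
      have hRr : (0 : ℝ) < R N := by exact_mod_cast (hR N hN).1
      have hPR : 0 < order (R N) k (α N) := Pool.Agent.H481.GS.Ph_pos (hR N hN).1 k (α N)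
      have hPN : 0 < order N k (α N) := Pool.Agent.H481.GS.Ph_pos hN k (α N)
      have h4 : shiftedMoment k (α N) ν ≤ D' * order (R N) k (α N) :=
        (hνk d k hk (α N)).trans (mul_le_mul_of_nonneg_right (le_max_left _ _) hPR.le)
      have h5 : order (R N) k (α N) ≤ ((R N : ℝ) / N) ^ q * order N k (α N) :=
        Pool.Agent.H481.GS.Ph_ratio hk (α N) (hR N hN).1 (hR N hN).2
      have h6 : c * order N k (α N) ≤ D' * ((R N : ℝ) / N) ^ q * order N k (α N) := by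
        calc c * order N k (α N) ≤ D' * order (R N) k (α N) := h3.trans h4
          _ ≤ D' * (((R N : ℝ) / N) ^ q * order N k (α N)) :=
              mul_le_mul_of_nonneg_left h5 hD'0.le
          _ = _ := by ring
      have h7 : c ≤ D' * ((R N : ℝ) / N) ^ q := le_of_mul_le_mul_right h6 hPN
      have h8 : c / D' ≤ ((R N : ℝ) / N) ^ q := by
        rw [div_le_iff₀ hD'0]
        linarith
      have h9 : (c / D') ^ (1 / q) ≤ (R N : ℝ) / N := by
        have h10 : (c / D') ^ (1 / q) ≤ (((R N : ℝ) / N) ^ q) ^ (1 / q) :=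
          Real.rpow_le_rpow (by positivity) h8 (by positivity)
        rwa [← Real.rpow_mul (by positivity), mul_one_div_cancel hq0.ne', Real.rpow_one] at h10
      have h11 : δ ≤ (R N : ℝ) / N := (min_le_right _ _).trans h9
      rwa [le_div_iff₀ hNr] at h11
    · push Not at h2
      have h3 : (N : ℝ) ≤ 2 * R N := by exact_mod_cast h2
      calc δ * N ≤ 1 / 2 * N := mul_le_mul_of_nonneg_right (min_le_left _ _) hNr.le
        _ ≤ R N := by linarith
  · rintro ⟨δ, hδ, h⟩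
    obtain ⟨C, hC, hup⟩ := part3 d k hk δ hδ
    obtain ⟨c, hc, hlow⟩ := part1 d k hk
    set δ' : ℝ := min δ 1 with hδ'
    have hδ'0 : 0 < δ' := lt_min hδ one_pos
    set P : ℝ := ∏ i, ∏ l, δ' ^ (k i * k l) with hP
    have hP0 : 0 < P := Finset.prod_pos fun i _ => Finset.prod_pos fun l _ => by positivity
    refine ⟨c * P, C, by positivity, hC, fun N hN ν hν => ⟨?_, (hup N (R N) hN (h N hN) ν hν
      (α N)).2⟩⟩
    have h1 := hlow N (R N) (hR N hN).1 (hR N hN).2 ν hν (α N)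
    have h2 : P * order N k (α N) ≤ order (R N) k (α N) :=
      Pool.Agent.H481.GS.Ph_delta hk (α N) hδ'0 (min_le_right _ _) (hR N hN).1 hN
        ((mul_le_mul_of_nonneg_right (min_le_left _ _) (by positivity)).trans (h N hN))
    calc c * P * order N k (α N) = c * (P * order N k (α N)) := by ring
      _ ≤ c * order (R N) k (α N) := mul_le_mul_of_nonneg_left h2 hc.le
      _ ≤ _ := h1
  · obtain ⟨C, _, h⟩ := Pool.Agent.H481.GS.kos_order hk hδ
    exact ⟨C, fun N R hN hR ν hν a => h N hN R hR ν hν.prob hν.unit (hTC N R ν hν) a⟩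

end Pool.Agent.Results.MP_069854_nt.ShiftedMomentOrder
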